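import Pool.Agent.Lib.MP_8a4e59_co.C.Stm

set_option autoImplicit false

/-! (C0a) The Bohr weight is a convex combination of exponentials (helper96). -/

namespace Pool.Agent.APP

open Finset

private def C0a_Conv (P : Set ℝ) (F : ℝ → ℂ) : Prop :=
  ∃ (ι : Type) (_ : Fintype ι) (c ζ : ι → ℝ), (∀ i, 0 ≤ c i) ∧ ∑ i, c i = 1 ∧ (∀ i, ζ i ∈ P) ∧
    ∀ z : ℝ, F z = ∑ i, (c i : ℂ) * ee (ζ i * z)

private def C0a_P (Th : Finset ℝ) (H : ℕ) : Set ℝ :=
  {x | ∃ v : ℝ → ℤ, (∀ θ ∈ Th, |v θ| ≤ (H : ℤ)) ∧ x = ∑ θ ∈ Th, (v θ : ℝ) * θ}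

private lemma C0a_mul {P P' Q : Set ℝ} {F F' : ℝ → ℂ} (h : C0a_Conv P F) (h' : C0a_Conv P' F')
    (hQ : ∀ x ∈ P, ∀ y ∈ P', x + y ∈ Q) : C0a_Conv Q (fun z => F z * F' z) := by
  obtain ⟨ι, _, c, ζ, h1, h2, h3, h4⟩ := h
  obtain ⟨κ, _, c', ζ', h1', h2', h3', h4'⟩ := h'
  refine ⟨ι × κ, inferInstance, fun i => c i.1 * c' i.2, fun i => ζ i.1 + ζ' i.2,
    fun i => mul_nonneg (h1 _) (h1' _), ?_, fun i => hQ _ (h3 _) _ (h3' _), fun z => ?_⟩
  · rw [Fintype.sum_prod_type]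
    simp only [← mul_sum, h2', mul_one, h2]
  · beta_reduce
    rw [h4, h4', Fintype.sum_prod_type, sum_mul_sum]
    refine sum_congr rfl fun i _ => sum_congr rfl fun j _ => ?_
    rw [add_mul, ee_add]
    push_cast
    ring

private lemma C0a_one (Th : Finset ℝ) : C0a_Conv (C0a_P Th 0) (fun _ => 1) := by
  refine ⟨Unit, inferInstance, fun _ => 1, fun _ => 0, fun _ => zero_le_one, by simp, fun _ => ?_,
    fun z => by simp [ee_zero]⟩
  exact ⟨fun _ => 0, fun θ _ => by simp, by simp⟩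

private lemma C0a_sq (K : ℕ) (hK : 1 ≤ K) (θ : ℝ) : C0a_Conv (C0a_P {θ} (K - 1))
    (fun z => ((‖(1 / (K : ℂ)) * ∑ j ∈ range K, ee (j * (θ * z))‖ ^ 2 : ℝ) : ℂ)) := by
  have hKne : (K : ℝ) ≠ 0 := by
    have : (0 : ℝ) < K := by exact_mod_cast hK
    exact this.ne'
  refine ⟨Fin K × Fin K, inferInstance, fun _ => 1 / (K : ℝ) * (1 / (K : ℝ)),
    fun i => ((i.1 : ℕ) - (i.2 : ℕ) : ℤ) * θ, fun _ => by positivity, ?_, ?_, ?_⟩
  · rw [sum_const, card_univ, Fintype.card_prod, Fintype.card_fin, nsmul_eq_mul]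
    push_cast
    field_simp
  · intro i
    refine ⟨fun _ => ((i.1 : ℕ) - (i.2 : ℕ) : ℤ), fun _ _ => ?_, by simp⟩
    have h1 := i.1.isLt
    have h2 := i.2.isLt
    beta_reduce
    rw [abs_le]
    omega
  · intro z
    beta_reduce
    have h1 : ((‖(1 / (K : ℂ)) * ∑ j ∈ range K, ee (j * (θ * z))‖ ^ 2 : ℝ) : ℂ) =
        ((1 / (K : ℂ)) * ∑ j ∈ range K, ee (j * (θ * z))) *
          (starRingEnd ℂ) ((1 / (K : ℂ)) * ∑ j ∈ range K, ee (j * (θ * z))) := by
      rw [Complex.mul_conj']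
      push_cast
      rfl
    rw [h1, map_mul, map_sum, Fintype.sum_prod_type, sum_range, sum_range]
    have h2 : (starRingEnd ℂ) (1 / (K : ℂ)) = 1 / (K : ℂ) := by simp
    rw [h2]
    have h3 : (1 / (K : ℂ) * ∑ i : Fin K, ee ((i : ℕ) * (θ * z))) *
        (1 / (K : ℂ) * ∑ i : Fin K, (starRingEnd ℂ) (ee ((i : ℕ) * (θ * z)))) =
        1 / (K : ℂ) * (1 / (K : ℂ)) * ((∑ i : Fin K, ee ((i : ℕ) * (θ * z))) *
          ∑ i : Fin K, (starRingEnd ℂ) (ee ((i : ℕ) * (θ * z)))) := by ring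
    rw [h3, sum_mul_sum, mul_sum]
    refine sum_congr rfl fun i _ => ?_
    rw [mul_sum]
    refine sum_congr rfl fun j _ => ?_
    rw [← ee_neg, ← ee_add]
    push_cast
    congr 2
    ring

private lemma C0a_fej (K r : ℕ) (hK : 1 ≤ K) (θ : ℝ) :
    C0a_Conv (C0a_P {θ} (r * (K - 1))) (fun z => ((fej K r (θ * z) : ℝ) : ℂ)) := by
  induction r with
  | zero =>
    have := C0a_one {θ}
    simpa [fej] using this
  | succ r ih =>
    have h := C0a_mul (Q := C0a_P {θ} ((r + 1) * (K - 1))) ih (C0a_sq K hK θ) ?_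
    · have e : (fun z : ℝ => ((fej K (r + 1) (θ * z) : ℝ) : ℂ)) = fun z =>
          ((fej K r (θ * z) : ℝ) : ℂ) *
            ((‖(1 / (K : ℂ)) * ∑ j ∈ range K, ee (j * (θ * z))‖ ^ 2 : ℝ) : ℂ) := by
        funext z
        rw [← Complex.ofReal_mul]
        congr 1
        unfold fej
        rw [← pow_add]
        congr 1
      rw [e]
      exact h
    · rintro x ⟨v, hv, rfl⟩ y ⟨w, hw, rfl⟩
      refine ⟨fun t => v t + w t, fun t ht => ?_, ?_⟩
      · refine (abs_add_le _ _).trans ?_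
        have h1 := hv t ht
        have h2 := hw t ht
        have h3 : (((r + 1) * (K - 1) : ℕ) : ℤ) = ((r * (K - 1) : ℕ) : ℤ) + ((K - 1 : ℕ) : ℤ) := by
          push_cast
          ring
        rw [h3]
        exact add_le_add h1 h2
      · simp [add_mul]

theorem p_C0a : S_C0a := by
  intro K r Th hK
  have main : C0a_Conv (C0a_P Th (r * (K - 1))) (fun z => ((bet K r Th z : ℝ) : ℂ)) := by
    induction Th using Finset.induction_on with
    | empty =>
      refine ⟨Unit, inferInstance, fun _ => 1, fun _ => 0, fun _ => zero_le_one, by simp,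
        fun _ => ⟨fun _ => 0, by simp, by simp⟩, fun z => by simp [ee_zero, bet]⟩
    | insert θ Th hθ ih =>
      have h := C0a_mul (Q := C0a_P (insert θ Th) (r * (K - 1))) (C0a_fej K r hK θ) ih ?_
      · have e : (fun z : ℝ => ((bet K r (insert θ Th) z : ℝ) : ℂ)) = fun z =>
            ((fej K r (θ * z) : ℝ) : ℂ) * ((bet K r Th z : ℝ) : ℂ) := by
          funext z
          rw [bet, prod_insert hθ, ← bet]
          push_cast
          rfl
        rw [e]
        exact h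
      · rintro x ⟨v, hv, rfl⟩ y ⟨w, hw, rfl⟩
        refine ⟨fun t => if t = θ then v t else w t, fun t ht => ?_, ?_⟩
        · by_cases h1 : t = θ
          · simp only [if_pos h1]
            exact hv t (by simp [h1])
          · simp only [if_neg h1]
            exact hw t ((mem_insert.1 ht).resolve_left h1)
        · rw [sum_insert hθ, sum_singleton]
          simp only [if_true]
          congr 1
          refine sum_congr rfl fun t ht => ?_
          rw [if_neg]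
          rintro rfl
          exact hθ ht
  obtain ⟨ι, _, c, ζ, h1, h2, h3, h4⟩ := main
  let e := Fintype.equivFin ι
  refine ⟨Fintype.card ι, fun i => c (e.symm i), fun i => ζ (e.symm i), fun i => h1 _, ?_,
    fun i => h3 _, fun z => ?_⟩
  · rw [← h2]
    exact Equiv.sum_comp e.symm c
  · have h4' : ((bet K r Th z : ℝ) : ℂ) = ∑ i, (c i : ℂ) * ee (ζ i * z) := h4 z
    rw [h4']
    exact (Equiv.sum_comp e.symm (fun i => (c i : ℂ) * ee (ζ i * z))).symm

end Pool.Agent.APP
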