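import Pool.Agent.Lib.MP_8a4e59_co.C.Stm

set_option autoImplicit false

/-! (C0b) elementary bounds for the Bohr weight. -/

namespace Pool.Agent.APP

open Finset

/-- the absolute value of the normalised Dirichlet kernel -/
noncomputable def C0b_D (K : ℕ) (t : ℝ) : ℝ := ‖(1 / (K : ℂ)) * ∑ j ∈ range K, ee (j * t)‖

lemma C0b_D_nonneg (K : ℕ) (t : ℝ) : 0 ≤ C0b_D K t := norm_nonneg _

lemma C0b_D_eq (K : ℕ) (t : ℝ) :
    C0b_D K t = (1 / (K : ℝ)) * ‖∑ j ∈ range K, ee (j * t)‖ := by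
  unfold C0b_D
  rw [norm_mul, norm_div, norm_one, Complex.norm_natCast]

lemma C0b_D_le_one (K : ℕ) (hK : 1 ≤ K) (t : ℝ) : C0b_D K t ≤ 1 := by
  have hKpos : (0 : ℝ) < K := by exact_mod_cast hK
  rw [C0b_D_eq K]
  calc 1 / (K : ℝ) * ‖∑ j ∈ range K, ee (j * t)‖ ≤ 1 / (K : ℝ) * K :=
        mul_le_mul_of_nonneg_left (norm_geom_le_card K t) (by positivity)
    _ = 1 := by field_simp

lemma C0b_D_zero (K : ℕ) (hK : 1 ≤ K) : C0b_D K 0 = 1 := by
  have hKpos : (0 : ℝ) < K := by exact_mod_cast hK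
  have hKne : (K : ℂ) ≠ 0 := by exact_mod_cast hKpos.ne'
  unfold C0b_D
  simp [ee_zero, hKne]

lemma C0b_D_neg (K : ℕ) (t : ℝ) : C0b_D K (-t) = C0b_D K t := by
  rw [C0b_D_eq, C0b_D_eq]
  congr 1
  have h : ∑ j ∈ range K, ee (j * -t) = (starRingEnd ℂ) (∑ j ∈ range K, ee (j * t)) := by
    rw [map_sum]
    refine sum_congr rfl fun j _ => ?_
    rw [← ee_neg]
    congr 1
    ring
  rw [h, Complex.norm_conj]

lemma C0b_D_lip (K : ℕ) (hK : 1 ≤ K) (t t' : ℝ) :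
    |C0b_D K t - C0b_D K t'| ≤ Real.pi * K * nn (t - t') := by
  have hKpos : (0 : ℝ) < K := by exact_mod_cast hK
  have hpi := Real.pi_pos
  have h1 : |C0b_D K t - C0b_D K t'| ≤
      ‖(1 / (K : ℂ)) * ∑ j ∈ range K, ee (j * t) - (1 / (K : ℂ)) * ∑ j ∈ range K, ee (j * t')‖ :=
    abs_norm_sub_norm_le _ _
  refine h1.trans ?_
  rw [← mul_sub, ← sum_sub_distrib, norm_mul, norm_div, norm_one, Complex.norm_natCast]
  have h2 : ‖∑ j ∈ range K, (ee (j * t) - ee (j * t'))‖ ≤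
      ∑ j ∈ range K, (j : ℝ) * (2 * Real.pi * nn (t - t')) := by
    refine (norm_sum_le _ _).trans (sum_le_sum fun j _ => ?_)
    refine (norm_ee_sub_ee_le _ _).trans ?_
    have h3 : (j : ℝ) * t - j * t' = ((j : ℤ) : ℝ) * (t - t') := by push_cast; ring
    rw [h3]
    have h4 := nn_int_mul_le (j : ℤ) (t - t')
    have h5 : |((j : ℤ) : ℝ)| = j := by push_cast; exact abs_of_nonneg (Nat.cast_nonneg _)
    rw [h5] at h4
    calc 2 * Real.pi * nn (((j : ℤ) : ℝ) * (t - t')) ≤ 2 * Real.pi * (j * nn (t - t')) :=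
          mul_le_mul_of_nonneg_left h4 (by positivity)
      _ = _ := by ring
  have h6 : ∑ j ∈ range K, (j : ℝ) * (2 * Real.pi * nn (t - t')) ≤
      (K : ℝ) * K * (Real.pi * nn (t - t')) := by
    rw [← sum_mul]
    have h7 : (∑ j ∈ range K, (j : ℝ)) * 2 = K * ((K : ℝ) - 1) := by
      have h8 := sum_range_id_mul_two K
      have h9 : (((∑ i ∈ range K, i) * 2 : ℕ) : ℝ) = ((K * (K - 1) : ℕ) : ℝ) := by rw [h8]
      push_cast [Nat.cast_sub hK] at h9
      exact h9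
    have h10 : 0 ≤ Real.pi * nn (t - t') := mul_nonneg hpi.le (nn_nonneg _)
    calc (∑ j ∈ range K, (j : ℝ)) * (2 * Real.pi * nn (t - t'))
        = ((∑ j ∈ range K, (j : ℝ)) * 2) * (Real.pi * nn (t - t')) := by ring
      _ = (K * ((K : ℝ) - 1)) * (Real.pi * nn (t - t')) := by rw [h7]
      _ ≤ (K : ℝ) * K * (Real.pi * nn (t - t')) := by
          apply mul_le_mul_of_nonneg_right _ h10
          exact mul_le_mul_of_nonneg_left (by linarith) hKpos.le
  calc 1 / (K : ℝ) * ‖∑ j ∈ range K, (ee (j * t) - ee (j * t'))‖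
      ≤ 1 / (K : ℝ) * ((K : ℝ) * K * (Real.pi * nn (t - t'))) :=
        mul_le_mul_of_nonneg_left (h2.trans h6) (by positivity)
    _ = Real.pi * K * nn (t - t') := by field_simp

lemma C0b_gam (K : ℕ) (Th : Finset ℝ) (z : ℝ) : gam K Th z = ∏ θ ∈ Th, C0b_D K (θ * z) := rfl

lemma C0b_prod (S : Finset ℝ) (a b : ℝ → ℝ) (ha : ∀ i, 0 ≤ a i ∧ a i ≤ 1)
    (hb : ∀ i, 0 ≤ b i ∧ b i ≤ 1) : |∏ i ∈ S, a i - ∏ i ∈ S, b i| ≤ ∑ i ∈ S, |a i - b i| := by
  classical
  induction S using Finset.induction_on with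
  | empty => simp
  | insert i S hi ih =>
    rw [prod_insert hi, prod_insert hi, sum_insert hi]
    have e : a i * ∏ j ∈ S, a j - b i * ∏ j ∈ S, b j =
        (a i - b i) * ∏ j ∈ S, a j + b i * (∏ j ∈ S, a j - ∏ j ∈ S, b j) := by ring
    rw [e]
    refine (abs_add_le _ _).trans (add_le_add ?_ ?_)
    · rw [abs_mul]
      have h1 : |∏ j ∈ S, a j| ≤ 1 := by
        rw [abs_of_nonneg (prod_nonneg fun j _ => (ha j).1)]
        exact prod_le_one (fun j _ => (ha j).1) (fun j _ => (ha j).2)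
      calc |a i - b i| * |∏ j ∈ S, a j| ≤ |a i - b i| * 1 :=
            mul_le_mul_of_nonneg_left h1 (abs_nonneg _)
        _ = |a i - b i| := mul_one _
    · rw [abs_mul, abs_of_nonneg (hb i).1]
      calc b i * |∏ j ∈ S, a j - ∏ j ∈ S, b j| ≤ 1 * |∏ j ∈ S, a j - ∏ j ∈ S, b j| :=
            mul_le_mul_of_nonneg_right (hb i).2 (abs_nonneg _)
        _ ≤ _ := by rw [one_mul]; exact ih

lemma C0b_pow {a b : ℝ} (ha : 0 ≤ a) (ha1 : a ≤ 1) (hb : 0 ≤ b) (hb1 : b ≤ 1) (n : ℕ) :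
    |a ^ n - b ^ n| ≤ n * |a - b| := by
  induction n with
  | zero => simp
  | succ n ih =>
    have h1 : a ^ (n + 1) - b ^ (n + 1) = a * (a ^ n - b ^ n) + b ^ n * (a - b) := by ring
    have h2 : |a * (a ^ n - b ^ n)| ≤ n * |a - b| := by
      rw [abs_mul, abs_of_nonneg ha]
      calc a * |a ^ n - b ^ n| ≤ 1 * |a ^ n - b ^ n| :=
            mul_le_mul_of_nonneg_right ha1 (abs_nonneg _)
        _ ≤ n * |a - b| := by rw [one_mul]; exact ih
    have h3 : |b ^ n * (a - b)| ≤ |a - b| := by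
      rw [abs_mul, abs_of_nonneg (pow_nonneg hb n)]
      calc b ^ n * |a - b| ≤ 1 * |a - b| :=
            mul_le_mul_of_nonneg_right (pow_le_one₀ hb hb1) (abs_nonneg _)
        _ = |a - b| := one_mul _
    rw [h1]
    refine (abs_add_le _ _).trans ?_
    push_cast
    linarith

/-- the sharper estimate, in terms of the largest of the two numbers -/
lemma C0b_pow2 {a b : ℝ} (ha : 0 ≤ a) (hab : a ≤ b) (n : ℕ) :
    |a ^ (n + 1) - b ^ (n + 1)| ≤ (n + 1) * |a - b| * b ^ n := by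
  have hb : 0 ≤ b := ha.trans hab
  induction n with
  | zero => simp
  | succ n ih =>
    have h1 : a ^ (n + 1 + 1) - b ^ (n + 1 + 1) =
        b * (a ^ (n + 1) - b ^ (n + 1)) + a ^ (n + 1) * (a - b) := by ring
    have h2 : |b * (a ^ (n + 1) - b ^ (n + 1))| ≤ (n + 1) * |a - b| * b ^ (n + 1) := by
      rw [abs_mul, abs_of_nonneg hb]
      calc b * |a ^ (n + 1) - b ^ (n + 1)| ≤ b * ((n + 1) * |a - b| * b ^ n) :=
            mul_le_mul_of_nonneg_left ih hb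
        _ = _ := by ring
    have h3 : |a ^ (n + 1) * (a - b)| ≤ b ^ (n + 1) * |a - b| := by
      rw [abs_mul, abs_of_nonneg (pow_nonneg ha _)]
      exact mul_le_mul_of_nonneg_right (pow_le_pow_left₀ ha hab _) (abs_nonneg _)
    rw [h1]
    refine (abs_add_le _ _).trans ?_
    push_cast
    calc _ ≤ (n + 1) * |a - b| * b ^ (n + 1) + b ^ (n + 1) * |a - b| := add_le_add h2 h3
      _ = _ := by ring

lemma C0b_half {a : ℝ} (ha : 0 ≤ a) {r : ℕ} (hr : 1 ≤ r) :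
    a ^ (2 * r - 1) ≤ 2 * a ^ (2 * r) + 2 * (1 / 4) ^ r := by
  obtain ⟨s, rfl⟩ : ∃ s, r = s + 1 := ⟨r - 1, by omega⟩
  have e1 : 2 * (s + 1) - 1 = 2 * s + 1 := by omega
  rw [e1]
  have e2 : a ^ (2 * (s + 1)) = a ^ (2 * s + 1) * a := by
    rw [show 2 * (s + 1) = (2 * s + 1) + 1 by ring, pow_succ]
  have e3 : (0 : ℝ) ≤ (1 / 4) ^ (s + 1) := by positivity
  have e4 : 0 ≤ a ^ (2 * s + 1) := pow_nonneg ha _
  rcases le_total (1 / 2) a with h | h
  · rw [e2]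
    nlinarith
  · have h1 : a ^ (2 * s + 1) ≤ (1 / 2) ^ (2 * s + 1) := pow_le_pow_left₀ ha h _
    have h2 : ((1 : ℝ) / 2) ^ (2 * s + 1) = 2 * (1 / 4) ^ (s + 1) := by
      rw [pow_succ, pow_mul, pow_succ]
      norm_num
      ring
    have h3 : 0 ≤ a ^ (2 * (s + 1)) := pow_nonneg ha _
    linarith

lemma C0b_pow3 {a b : ℝ} (ha : 0 ≤ a) (hb : 0 ≤ b) {r : ℕ} (hr : 1 ≤ r) :
    |a ^ (2 * r) - b ^ (2 * r)| ≤
      4 * r * |a - b| * (a ^ (2 * r) + b ^ (2 * r) + 2 * (1 / 4) ^ r) := by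
  have key : ∀ a b : ℝ, 0 ≤ a → a ≤ b → |a ^ (2 * r) - b ^ (2 * r)| ≤
      4 * r * |a - b| * (a ^ (2 * r) + b ^ (2 * r) + 2 * (1 / 4) ^ r) := by
    intro a b ha hab
    have hb : 0 ≤ b := ha.trans hab
    have h1 := C0b_pow2 ha hab (2 * r - 1)
    have e1 : 2 * r - 1 + 1 = 2 * r := by omega
    have e2 : (((2 * r - 1 : ℕ) : ℝ) + 1) = 2 * r := by
      have : ((2 * r - 1 + 1 : ℕ) : ℝ) = ((2 * r : ℕ) : ℝ) := by rw [e1]
      push_cast at this
      exact this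
    rw [e1, e2] at h1
    refine h1.trans ?_
    have h2 := C0b_half hb hr
    have h3 : 0 ≤ a ^ (2 * r) := pow_nonneg ha _
    have h4 : (0 : ℝ) ≤ (1 / 4) ^ r := by positivity
    have h5 : 0 ≤ 2 * (r : ℝ) * |a - b| := by positivity
    calc 2 * (r : ℝ) * |a - b| * b ^ (2 * r - 1)
        ≤ 2 * (r : ℝ) * |a - b| * (2 * (a ^ (2 * r) + b ^ (2 * r) + 2 * (1 / 4) ^ r)) := by
          apply mul_le_mul_of_nonneg_left _ h5
          linarith
      _ = _ := by ring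
  rcases le_total a b with h | h
  · exact key a b ha h
  · have := key b a hb h
    rw [abs_sub_comm, abs_sub_comm a b]
    refine this.trans_eq ?_
    ring

theorem p_C0b : S_C0b := by
  intro K r Th hK hr
  have hKpos : (0 : ℝ) < K := by exact_mod_cast hK
  have hrpos : (1 : ℝ) ≤ r := by exact_mod_cast hr
  have hpi := Real.pi_pos
  have hbet : ∀ z, bet K r Th z = gam K Th z ^ (2 * r) := by
    intro z
    rw [C0b_gam, ← prod_pow]
    rfl
  have hg : ∀ z, 0 ≤ gam K Th z ∧ gam K Th z ≤ 1 := by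
    intro z
    rw [C0b_gam]
    exact ⟨prod_nonneg fun θ _ => C0b_D_nonneg _ _,
      prod_le_one (fun θ _ => C0b_D_nonneg _ _) (fun θ _ => C0b_D_le_one K hK _)⟩
  have hneg : ∀ z, bet K r Th (-z) = bet K r Th z := by
    intro z
    rw [hbet, hbet, C0b_gam, C0b_gam]
    congr 1
    refine prod_congr rfl fun θ _ => ?_
    rw [mul_neg, C0b_D_neg]
  have h0 : bet K r Th 0 = 1 := by
    rw [hbet, C0b_gam]
    have : ∏ θ ∈ Th, C0b_D K (θ * 0) = 1 := by
      apply prod_eq_one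
      intro θ _
      rw [mul_zero, C0b_D_zero K hK]
    rw [this, one_pow]
  have hdec : ∀ z, ∀ θ ∈ Th, 0 < nn (θ * z) →
      bet K r Th z ≤ (1 / (2 * K * nn (θ * z))) ^ (2 * r) := by
    intro z θ hθ hn
    rw [hbet]
    apply pow_le_pow_left₀ (hg z).1
    have h1 : gam K Th z ≤ C0b_D K (θ * z) := by
      classical
      rw [C0b_gam, ← mul_prod_erase Th _ hθ]
      calc C0b_D K (θ * z) * ∏ x ∈ Th.erase θ, C0b_D K (x * z) ≤ C0b_D K (θ * z) * 1 :=
            mul_le_mul_of_nonneg_left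
              (prod_le_one (fun θ _ => C0b_D_nonneg _ _) (fun θ _ => C0b_D_le_one K hK _))
              (C0b_D_nonneg _ _)
        _ = _ := mul_one _
    refine h1.trans ?_
    have h2 := norm_geom_mul_le K (θ * z)
    rw [C0b_D_eq, le_div_iff₀ (by positivity)]
    generalize ‖∑ j ∈ range K, ee (j * (θ * z))‖ = A at h2 ⊢
    calc 1 / (K : ℝ) * A * (2 * K * nn (θ * z)) = A * (2 * nn (θ * z)) := by field_simp
      _ ≤ 1 := h2
  have hgl : ∀ z z', |gam K Th z - gam K Th z'| ≤ Real.pi * K * ∑ θ ∈ Th, nn (θ * (z - z')) := by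
    intro z z'
    rw [C0b_gam, C0b_gam, mul_sum]
    refine (C0b_prod Th (fun θ => C0b_D K (θ * z)) (fun θ => C0b_D K (θ * z'))
      (fun θ => ⟨C0b_D_nonneg _ _, C0b_D_le_one K hK _⟩)
      (fun θ => ⟨C0b_D_nonneg _ _, C0b_D_le_one K hK _⟩)).trans ?_
    refine sum_le_sum fun θ _ => ?_
    have := C0b_D_lip K hK (θ * z) (θ * z')
    rwa [← mul_sub] at this
  have hsum : ∀ z z', 0 ≤ ∑ θ ∈ Th, nn (θ * (z - z')) := fun z z' =>
    sum_nonneg fun θ _ => nn_nonneg _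
  have hbl : ∀ z z', |bet K r Th z - bet K r Th z'| ≤
      20 * r * K * ∑ θ ∈ Th, nn (θ * (z - z')) := by
    intro z z'
    rw [hbet, hbet]
    have h1 := C0b_pow (hg z).1 (hg z).2 (hg z').1 (hg z').2 (2 * r)
    have h2 := hgl z z'
    have h3 := hsum z z'
    have h4 : Real.pi ≤ 10 := by linarith [Real.pi_lt_d2]
    calc |gam K Th z ^ (2 * r) - gam K Th z' ^ (2 * r)|
        ≤ ((2 * r : ℕ) : ℝ) * |gam K Th z - gam K Th z'| := h1
      _ ≤ ((2 * r : ℕ) : ℝ) * (Real.pi * K * ∑ θ ∈ Th, nn (θ * (z - z'))) :=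
          mul_le_mul_of_nonneg_left h2 (Nat.cast_nonneg _)
      _ = Real.pi * (2 * r * K * ∑ θ ∈ Th, nn (θ * (z - z'))) := by push_cast; ring
      _ ≤ 10 * (2 * r * K * ∑ θ ∈ Th, nn (θ * (z - z'))) :=
          mul_le_mul_of_nonneg_right h4 (by positivity)
      _ = _ := by ring
  refine ⟨hbet, hg, hneg, h0, hdec, hgl, hbl, ?_, ?_⟩
  · intro z z'
    rw [hbet, hbet]
    have h1 := C0b_pow3 (hg z).1 (hg z').1 hr
    have h2 := hgl z z'
    have h3 : (0 : ℝ) ≤ 4 * r *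
        (gam K Th z ^ (2 * r) + gam K Th z' ^ (2 * r) + 2 * (1 / 4) ^ r) := by
      have e1 := pow_nonneg (hg z).1 (2 * r)
      have e2 := pow_nonneg (hg z').1 (2 * r)
      positivity
    calc |gam K Th z ^ (2 * r) - gam K Th z' ^ (2 * r)|
        ≤ 4 * r * |gam K Th z - gam K Th z'| *
          (gam K Th z ^ (2 * r) + gam K Th z' ^ (2 * r) + 2 * (1 / 4) ^ r) := h1
      _ = (4 * r * (gam K Th z ^ (2 * r) + gam K Th z' ^ (2 * r) + 2 * (1 / 4) ^ r)) *
          |gam K Th z - gam K Th z'| := by ring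
      _ ≤ (4 * r * (gam K Th z ^ (2 * r) + gam K Th z' ^ (2 * r) + 2 * (1 / 4) ^ r)) *
          (Real.pi * K * ∑ θ ∈ Th, nn (θ * (z - z'))) := mul_le_mul_of_nonneg_left h2 h3
      _ = _ := by ring
  · intro z
    have h1 := hbl z 0
    rw [h0] at h1
    have h2 := neg_abs_le (bet K r Th z - 1)
    simp only [sub_zero] at h1
    linarith

end Pool.Agent.APP
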