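import Pool.Agent.Lib.MP_8a4e59_co.C.Stm

set_option autoImplicit false

namespace Pool.Agent.APP

open Finset

private lemma C1_fract_lt (M : ℕ) (hM : 1 ≤ M) (x : ℝ) : ⌊(M : ℝ) * Int.fract x⌋₊ < M := by
  have hM0 : (0 : ℝ) < M := by exact_mod_cast hM
  rw [Nat.floor_lt (mul_nonneg hM0.le (Int.fract_nonneg x))]
  calc (M : ℝ) * Int.fract x < M * 1 := mul_lt_mul_of_pos_left (Int.fract_lt_one x) hM0
    _ = M := mul_one _

private lemma C1_nn (M : ℕ) (hM : 1 ≤ M) (x y : ℝ)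
    (h : ⌊(M : ℝ) * Int.fract x⌋₊ = ⌊(M : ℝ) * Int.fract y⌋₊) : nn (x - y) ≤ 1 / M := by
  have hM0 : (0 : ℝ) < M := by exact_mod_cast hM
  have h1 := nn_le_abs_sub (x - y) (⌊x⌋ - ⌊y⌋)
  refine h1.trans ?_
  have e1 : x - y - ((⌊x⌋ - ⌊y⌋ : ℤ) : ℝ) = Int.fract x - Int.fract y := by
    unfold Int.fract; push_cast; ring
  rw [e1, le_div_iff₀ hM0, ← abs_of_pos hM0, ← abs_mul]
  have hx1 := Nat.floor_le (mul_nonneg hM0.le (Int.fract_nonneg x))
  have hx2 := Nat.lt_floor_add_one ((M : ℝ) * Int.fract x)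
  have hy1 := Nat.floor_le (mul_nonneg hM0.le (Int.fract_nonneg y))
  have hy2 := Nat.lt_floor_add_one ((M : ℝ) * Int.fract y)
  rw [h] at hx1 hx2
  rw [abs_le]
  constructor <;> nlinarith

theorem p_C1 (hC0b : S_C0b) : S_C1 := by
  intro K r Th q N hK hr hYB
  obtain ⟨hbg, hg, -, -, -, -, -, -, hlow⟩ := hC0b K r Th hK hr
  have hbet0 : ∀ z, 0 ≤ bet K r Th z := by
    intro z; rw [hbg]; exact pow_nonneg (hg z).1 _
  set R := Th.card with hR
  set M : ℕ := 40 * r * K * (R + 1) with hM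
  have hM40 : 40 ≤ M := by
    have h1 : 1 ≤ r * K * (R + 1) := Nat.one_le_iff_ne_zero.2 (by positivity)
    calc 40 = 40 * 1 := by norm_num
      _ ≤ 40 * (r * K * (R + 1)) := Nat.mul_le_mul_left _ h1
      _ = M := by rw [hM]; ring
  have hM1 : 1 ≤ M := by omega
  have hM0 : (0 : ℝ) < M := by exact_mod_cast hM1
  have hYBe : YB K r R = 5 ^ (R + 1) * (M * M ^ R) := by
    unfold YB
    rw [← pow_succ', ← mul_pow]
    congr 1
    rw [hM]; ring
  have h5 : 5 ≤ 5 ^ (R + 1) := by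
    calc 5 = 5 ^ 1 := by norm_num
      _ ≤ 5 ^ (R + 1) := Nat.pow_le_pow_right (by norm_num) (by omega)
  set P : ℕ := M ^ R with hP
  have hP1 : 1 ≤ P := Nat.one_le_pow _ _ (by omega)
  have hPYB : P ≤ YB K r R := by
    rw [hYBe]
    calc P = 1 * (1 * P) := by ring
      _ ≤ 5 ^ (R + 1) * (M * P) := Nat.mul_le_mul (by omega) (Nat.mul_le_mul_right _ (by omega))
  set n : ℕ := (N + 1) / P with hn
  have hn1 : 1 ≤ n := by
    rw [hn, Nat.one_le_div_iff (by omega)]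
    omega
  -- pigeonhole
  let f : ℕ → (Th → Fin M) := fun x θ =>
    ⟨⌊(M : ℝ) * Int.fract ((θ : ℝ) * (q * x))⌋₊, C1_fract_lt M hM1 _⟩
  have hcardT : (Finset.univ : Finset (Th → Fin M)).card = P := by
    rw [Finset.card_univ, Fintype.card_fun, Fintype.card_fin, Fintype.card_coe]
  have : Nonempty (Fin M) := ⟨⟨0, by omega⟩⟩
  obtain ⟨c, -, hc⟩ := Finset.exists_le_card_fiber_of_mul_le_card_of_maps_to
    (s := Finset.range (N + 1)) (t := (Finset.univ : Finset (Th → Fin M))) (f := f) (n := n)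
    (fun _ _ => Finset.mem_univ _) Finset.univ_nonempty (by
      rw [hcardT, Finset.card_range, hn]; exact Nat.mul_div_le _ _)
  set C := (Finset.range (N + 1)).filter (fun x => f x = c) with hC
  have hCne : C.Nonempty := Finset.card_pos.1 (by omega)
  set x₀ := C.min' hCne with hx₀
  have hx₀C : x₀ ∈ C := Finset.min'_mem _ _
  set S : Finset ℤ := (C.erase x₀).image (fun x : ℕ => (x : ℤ) - x₀) with hS
  have hScard : S.card = C.card - 1 := by
    rw [hS, Finset.card_image_of_injective _ (fun a b hab => by simpa using hab),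
      Finset.card_erase_of_mem hx₀C]
  have hSmem : ∀ y ∈ S, 1 ≤ y ∧ y ≤ N ∧ 1 / 2 ≤ bet K r Th ((q : ℝ) * y) := by
    intro y hy
    rw [hS, Finset.mem_image] at hy
    obtain ⟨x, hx, rfl⟩ := hy
    have hxC := Finset.mem_of_mem_erase hx
    have hxne := Finset.ne_of_mem_erase hx
    have hle : x₀ ≤ x := Finset.min'_le _ _ hxC
    have hxN : x < N + 1 := Finset.mem_range.1 (Finset.mem_filter.1 hxC).1
    have hfx : f x = c := (Finset.mem_filter.1 hxC).2
    have hfx₀ : f x₀ = c := (Finset.mem_filter.1 hx₀C).2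
    refine ⟨by omega, by omega, ?_⟩
    have hb : ∀ θ ∈ Th, nn (θ * ((q : ℝ) * (((x : ℤ) - x₀ : ℤ) : ℝ))) ≤ 1 / M := by
      intro θ hθ
      have h1 : f x ⟨θ, hθ⟩ = f x₀ ⟨θ, hθ⟩ := by rw [hfx, hfx₀]
      have h2 := congrArg Fin.val h1
      have h3 := C1_nn M hM1 _ _ h2
      have e1 : θ * ((q : ℝ) * (((x : ℤ) - x₀ : ℤ) : ℝ)) = θ * (q * x) - θ * (q * x₀) := by
        push_cast; ring
      rw [e1]
      exact h3
    have h4 := hlow ((q : ℝ) * (((x : ℤ) - x₀ : ℤ) : ℝ))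
    refine le_trans ?_ h4
    have h5 : ∑ θ ∈ Th, nn (θ * ((q : ℝ) * (((x : ℤ) - x₀ : ℤ) : ℝ))) ≤ R * (1 / M) := by
      refine (Finset.sum_le_sum hb).trans_eq ?_
      rw [Finset.sum_const, nsmul_eq_mul]
    have hrK : (0 : ℝ) < 20 * r * K := by
      have : (0 : ℝ) < r := by exact_mod_cast hr
      have : (0 : ℝ) < K := by exact_mod_cast hK
      positivity
    have h6 : 20 * (r : ℝ) * K * (R * (1 / M)) ≤ 1 / 2 := by
      have hMr : (M : ℝ) = 40 * r * K * (R + 1) := by rw [hM]; push_cast; ring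
      rw [mul_one_div, ← mul_div_assoc, div_le_iff₀ hM0, hMr]
      nlinarith
    have h7 : 20 * (r : ℝ) * K * ∑ θ ∈ Th, nn (θ * ((q : ℝ) * (((x : ℤ) - x₀ : ℤ) : ℝ))) ≤
        20 * (r : ℝ) * K * (R * (1 / M)) := mul_le_mul_of_nonneg_left h5 hrK.le
    linarith
  have hmass : ((C.card - 1 : ℕ) : ℝ) * (1 / 2) ≤ mass (wgt K r Th q 1 N) N := by
    unfold mass
    have hsub : S ⊆ Finset.Icc (1 : ℤ) N := by
      intro y hy
      rw [Finset.mem_Icc]
      exact ⟨(hSmem y hy).1, (hSmem y hy).2.1⟩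
    calc ((C.card - 1 : ℕ) : ℝ) * (1 / 2) = ∑ _y ∈ S, (1 / 2 : ℝ) := by
          rw [Finset.sum_const, nsmul_eq_mul, hScard]
      _ ≤ ∑ y ∈ S, wgt K r Th q 1 N y := by
          apply Finset.sum_le_sum
          intro y hy
          obtain ⟨h1, h2, h3⟩ := hSmem y hy
          unfold wgt
          rw [if_pos ⟨h1, h2⟩]
          exact h3
      _ ≤ ∑ y ∈ Finset.Icc (1 : ℤ) N, wgt K r Th q 1 N y := by
          apply Finset.sum_le_sum_of_subset_of_nonneg hsub
          intro y _ _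
          unfold wgt
          split_ifs
          · exact hbet0 _
          · exact le_rfl
  have hlt : N + 1 < P * (n + 1) := by
    rw [hn]; exact Nat.lt_mul_div_succ _ (by omega)
  have hltR : (N : ℝ) + 1 < P * (n + 1) := by exact_mod_cast hlt
  have hcn : (n : ℝ) - 1 ≤ ((C.card - 1 : ℕ) : ℝ) := by
    rw [Nat.cast_sub (by omega)]
    have : (n : ℝ) ≤ C.card := by exact_mod_cast hc
    push_cast; linarith
  have hYBr : (YB K r R : ℝ) = 5 ^ (R + 1) * (M * P) := by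
    rw [hYBe]; push_cast; ring
  have hYBN : (YB K r R : ℝ) ≤ N := by exact_mod_cast hYB
  have hYB0 : (0 : ℝ) ≤ YB K r R := Nat.cast_nonneg _
  have h5r : (5 : ℝ) ≤ 5 ^ (R + 1) := by exact_mod_cast h5
  have hM40r : (40 : ℝ) ≤ M := by exact_mod_cast hM40
  have h200 : (200 : ℝ) ≤ 5 ^ (R + 1) * M := by nlinarith
  have hkey : (N : ℝ) ≤ YB K r R * (((n : ℝ) - 1) * (1 / 2)) := by
    have e1 : (YB K r R : ℝ) * (((n : ℝ) - 1) * (1 / 2)) =
        (5 ^ (R + 1) * M) * (P * (n + 1)) / 2 - YB K r R := by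
      rw [hYBr]; ring
    rw [e1]
    have h8 : (5 ^ (R + 1) * (M : ℝ)) * ((N : ℝ) + 1) ≤ (5 ^ (R + 1) * M) * (P * (n + 1)) :=
      mul_le_mul_of_nonneg_left hltR.le (by positivity)
    have h9 : (200 : ℝ) * ((N : ℝ) + 1) ≤ (5 ^ (R + 1) * (M : ℝ)) * ((N : ℝ) + 1) :=
      mul_le_mul_of_nonneg_right h200 (by positivity)
    have hN0 : (0 : ℝ) ≤ N := Nat.cast_nonneg _
    linarith
  calc (N : ℝ) ≤ YB K r R * (((n : ℝ) - 1) * (1 / 2)) := hkey
    _ ≤ YB K r R * mass (wgt K r Th q 1 N) N := by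
        apply mul_le_mul_of_nonneg_left _ hYB0
        refine le_trans ?_ hmass
        exact mul_le_mul_of_nonneg_right hcn (by norm_num)

end Pool.Agent.APP
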