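import Pool.Agent.Lib.MP_8a4e59_co.C.Stm

set_option autoImplicit false

namespace Pool.Agent.APP

open Finset

/-- elementary symmetric function of the values of `h` on `P` -/
noncomputable def C4_e (P : Finset ℕ) (h : ℕ → ℝ) (j : ℕ) : ℝ :=
  ∑ T ∈ P.powersetCard j, ∏ p ∈ T, h p

lemma C4_e_zero (P : Finset ℕ) (h : ℕ → ℝ) : C4_e P h 0 = 1 := by
  unfold C4_e
  rw [powersetCard_zero, sum_singleton, prod_empty]

lemma C4_e_empty (h : ℕ → ℝ) (j : ℕ) : C4_e ∅ h (j + 1) = 0 := by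
  unfold C4_e
  rw [powersetCard_eq_empty.2 (by simp), sum_empty]

lemma C4_e_insert {Q : Finset ℕ} {a : ℕ} (ha : a ∉ Q) (h : ℕ → ℝ) (j : ℕ) :
    C4_e (insert a Q) h (j + 1) = C4_e Q h (j + 1) + h a * C4_e Q h j := by
  unfold C4_e
  rw [powersetCard_succ_insert ha, sum_union, sum_image, mul_sum]
  · congr 1
    refine sum_congr rfl (fun T hT => ?_)
    rw [mem_powersetCard] at hT
    rw [prod_insert (fun h => ha (hT.1 h))]
  · intro T hT T' hT' hTT
    rw [mem_coe, mem_powersetCard] at hT hT'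
    have h1 : a ∉ T := fun h => ha (hT.1 h)
    have h2 : a ∉ T' := fun h => ha (hT'.1 h)
    rw [← erase_insert h1, ← erase_insert h2]
    exact congrArg (fun U => U.erase a) hTT
  · rw [disjoint_left]
    intro T hT hT'
    rw [mem_image] at hT'
    obtain ⟨U, _, rfl⟩ := hT'
    rw [mem_powersetCard] at hT
    exact ha (hT.1 (mem_insert_self a U))

lemma C4_e_nonneg {P : Finset ℕ} {h : ℕ → ℝ} (hh : ∀ p ∈ P, 0 ≤ h p) (j : ℕ) : 0 ≤ C4_e P h j := by
  unfold C4_e
  refine sum_nonneg (fun T hT => prod_nonneg (fun p hp => ?_))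
  rw [mem_powersetCard] at hT
  exact hh p (hT.1 hp)

lemma C4_bern (s x : ℝ) (hs : 0 ≤ s) (hx : 0 ≤ x) (m : ℕ) :
    s ^ (m + 1) + ((m : ℝ) + 1) * x * s ^ m ≤ (s + x) ^ (m + 1) := by
  induction m with
  | zero => simp
  | succ m ih =>
    have h1 : (s + x) * (s ^ (m + 1) + ((m : ℝ) + 1) * x * s ^ m) ≤ (s + x) * (s + x) ^ (m + 1) :=
      mul_le_mul_of_nonneg_left ih (by positivity)
    have h2 : 0 ≤ ((m : ℝ) + 1) * x ^ 2 * s ^ m := by positivity
    have h3 : (s + x) * (s ^ (m + 1) + ((m : ℝ) + 1) * x * s ^ m) =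
        s ^ (m + 1 + 1) + (((m + 1 : ℕ) : ℝ) + 1) * x * s ^ (m + 1) +
          ((m : ℝ) + 1) * x ^ 2 * s ^ m := by
      push_cast
      ring
    have h4 : (s + x) * (s + x) ^ (m + 1) = (s + x) ^ (m + 1 + 1) := by ring
    rw [h3, h4] at h1
    linarith

/-- `e_n ≤ (∑ h)^n / n!` -/
lemma C4_e_le {P : Finset ℕ} {h : ℕ → ℝ} (hh : ∀ p ∈ P, 0 ≤ h p) (n : ℕ) :
    (n.factorial : ℝ) * C4_e P h n ≤ (∑ p ∈ P, h p) ^ n := by
  induction P using Finset.induction_on generalizing n with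
  | empty =>
    cases n with
    | zero => rw [C4_e_zero]; simp
    | succ n => rw [C4_e_empty]; simp
  | insert a Q ha ih =>
    cases n with
    | zero => rw [C4_e_zero]; simp
    | succ n =>
      have hQ : ∀ p ∈ Q, 0 ≤ h p := fun p hp => hh p (mem_insert_of_mem hp)
      have hx : 0 ≤ h a := hh a (mem_insert_self a Q)
      have hs : 0 ≤ ∑ p ∈ Q, h p := sum_nonneg hQ
      rw [C4_e_insert ha, sum_insert ha]
      have h1 := ih hQ (n + 1)
      have h2 := ih hQ n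
      have h3 := C4_bern (∑ p ∈ Q, h p) (h a) hs hx n
      have h4 : ((n : ℝ) + 1) * h a * ((n.factorial : ℝ) * C4_e Q h n) ≤
          ((n : ℝ) + 1) * h a * (∑ p ∈ Q, h p) ^ n :=
        mul_le_mul_of_nonneg_left h2 (by positivity)
      have h5 : (((n + 1).factorial : ℕ) : ℝ) = ((n : ℝ) + 1) * (n.factorial : ℝ) := by
        rw [Nat.factorial_succ]
        push_cast
        ring
      rw [h5] at h1 ⊢
      rw [add_comm (h a)]
      nlinarith

/-- Bonferroni for the product measure -/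
lemma C4_bon {P : Finset ℕ} {h : ℕ → ℝ} (hh : ∀ p ∈ P, 0 ≤ h p ∧ h p ≤ 1) (n : ℕ) :
    0 ≤ (-1) ^ n * (∏ p ∈ P, (1 - h p) - ∑ j ∈ range n, (-1) ^ j * C4_e P h j) ∧
    (-1) ^ n * (∏ p ∈ P, (1 - h p) - ∑ j ∈ range n, (-1) ^ j * C4_e P h j) ≤ C4_e P h n := by
  induction P using Finset.induction_on generalizing n with
  | empty =>
    cases n with
    | zero => rw [C4_e_zero]; simp
    | succ n =>
      rw [C4_e_empty, sum_range_succ', C4_e_zero]
      simp only [C4_e_empty, prod_empty, mul_zero, sum_const_zero, pow_zero, mul_one, zero_add,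
        sub_self, le_refl, and_self]
  | insert a Q ha ih =>
    have hQ : ∀ p ∈ Q, 0 ≤ h p ∧ h p ≤ 1 := fun p hp => hh p (mem_insert_of_mem hp)
    have hx := hh a (mem_insert_self a Q)
    cases n with
    | zero =>
      have h1 := ih hQ 0
      rw [C4_e_zero] at h1 ⊢
      simp only [pow_zero, range_zero, sum_empty, sub_zero, one_mul] at h1 ⊢
      rw [prod_insert ha]
      constructor
      · exact mul_nonneg (by linarith [hx.2]) h1.1
      · nlinarith [h1.1, h1.2, hx.1, hx.2]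
    | succ n =>
      have h1 := ih hQ (n + 1)
      have h2 := ih hQ n
      have e : (-1 : ℝ) ^ (n + 1) * (∏ p ∈ insert a Q, (1 - h p) -
          ∑ j ∈ range (n + 1), (-1) ^ j * C4_e (insert a Q) h j) =
          (-1) ^ (n + 1) * (∏ p ∈ Q, (1 - h p) - ∑ j ∈ range (n + 1), (-1) ^ j * C4_e Q h j) +
          h a * ((-1) ^ n * (∏ p ∈ Q, (1 - h p) - ∑ j ∈ range n, (-1) ^ j * C4_e Q h j)) := by
        rw [prod_insert ha, sum_range_succ' _ n, C4_e_zero]
        rw [sum_range_succ' (fun j => (-1 : ℝ) ^ j * C4_e Q h j) n, C4_e_zero]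
        have h3 : ∑ j ∈ range n, (-1 : ℝ) ^ (j + 1) * C4_e (insert a Q) h (j + 1) =
            ∑ j ∈ range n, (-1 : ℝ) ^ (j + 1) * C4_e Q h (j + 1) -
              h a * ∑ j ∈ range n, (-1) ^ j * C4_e Q h j := by
          rw [mul_sum, ← sum_sub_distrib]
          refine sum_congr rfl (fun j _ => ?_)
          rw [C4_e_insert ha]
          ring
        rw [h3]
        ring
      rw [e, C4_e_insert ha]
      constructor
      · exact add_nonneg h1.1 (mul_nonneg hx.1 h2.1)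
      · exact add_le_add h1.2 (mul_le_mul_of_nonneg_left h2.2 hx.1)

lemma C4_abs {P : Finset ℕ} {h : ℕ → ℝ} (hh : ∀ p ∈ P, 0 ≤ h p ∧ h p ≤ 1) (n : ℕ) :
    |∏ p ∈ P, (1 - h p) - ∑ j ∈ range n, (-1) ^ j * C4_e P h j| ≤ C4_e P h n := by
  have h1 := C4_bon hh n
  have h2 : |(-1 : ℝ) ^ n * (∏ p ∈ P, (1 - h p) - ∑ j ∈ range n, (-1) ^ j * C4_e P h j)| =
      |∏ p ∈ P, (1 - h p) - ∑ j ∈ range n, (-1) ^ j * C4_e P h j| := by
    rw [abs_mul, abs_pow, abs_neg, abs_one, one_pow, one_mul]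
  rw [← h2, abs_of_nonneg h1.1]
  exact h1.2

open Classical in
lemma C4_chi (T : Finset ℕ) (b : ℕ → Prop) :
    ∏ p ∈ T, (if b p then (1 : ℝ) else 0) = if (∀ p ∈ T, b p) then 1 else 0 := by
  by_cases hT : ∀ p ∈ T, b p
  · rw [if_pos hT]
    exact prod_eq_one (fun p hp => if_pos (hT p hp))
  · rw [if_neg hT]
    push Not at hT
    obtain ⟨p, hp, hb⟩ := hT
    exact prod_eq_zero hp (if_neg hb)

open Classical in
lemma C4_chi' (T : Finset ℕ) (b : ℕ → Prop) :
    ∏ p ∈ T, (1 - (if b p then (1 : ℝ) else 0)) = if (∀ p ∈ T, ¬ b p) then 1 else 0 := by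
  by_cases hT : ∀ p ∈ T, ¬ b p
  · rw [if_pos hT]
    exact prod_eq_one (fun p hp => by rw [if_neg (hT p hp), sub_zero])
  · rw [if_neg hT]
    push Not at hT
    obtain ⟨p, hp, hb⟩ := hT
    exact prod_eq_zero hp (by rw [if_pos hb, sub_self])

open Classical in
theorem p_C4 : S_C4 := by
  intro ι S w P bad h M err k hw hh hM herr
  set W : Finset ℕ → ℝ := fun T => ∑ i ∈ S.filter (fun i => ∀ p ∈ T, bad i p), w i with hW
  set Z : ℝ := ∑ i ∈ S.filter (fun i => ∀ p ∈ P, ¬ bad i p), w i with hZ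
  set χ : ι → ℕ → ℝ := fun i p => if bad i p then 1 else 0 with hχ
  have hWχ : ∀ T, W T = ∑ i ∈ S, w i * ∏ p ∈ T, χ i p := by
    intro T
    rw [hW]
    simp only [sum_filter]
    refine sum_congr rfl (fun i _ => ?_)
    rw [hχ]
    simp only
    rw [C4_chi, mul_ite, mul_one, mul_zero]
  have hZχ : Z = ∑ i ∈ S, w i * ∏ p ∈ P, (1 - χ i p) := by
    rw [hZ, sum_filter]
    refine sum_congr rfl (fun i _ => ?_)
    rw [hχ]
    simp only
    rw [C4_chi', mul_ite, mul_one, mul_zero]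
  have hsumW : ∀ j, ∑ T ∈ P.powersetCard j, W T = ∑ i ∈ S, w i * C4_e P (χ i) j := by
    intro j
    unfold C4_e
    simp only [mul_sum]
    rw [sum_comm]
    exact sum_congr rfl (fun T _ => hWχ T)
  have hχ01 : ∀ i, ∀ p ∈ P, 0 ≤ χ i p ∧ χ i p ≤ 1 := by
    intro i p _
    rw [hχ]
    simp only
    split_ifs <;> norm_num
  -- (1)
  have h1 : |Z - ∑ j ∈ range (k + 1), (-1) ^ j * ∑ T ∈ P.powersetCard j, W T| ≤
      ∑ T ∈ P.powersetCard (k + 1), W T := by
    have e : Z - ∑ j ∈ range (k + 1), (-1) ^ j * ∑ T ∈ P.powersetCard j, W T =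
        ∑ i ∈ S, w i * (∏ p ∈ P, (1 - χ i p) - ∑ j ∈ range (k + 1), (-1) ^ j * C4_e P (χ i) j) := by
      simp only [hsumW, mul_sub, sum_sub_distrib, ← hZχ]
      congr 1
      simp only [mul_sum]
      rw [sum_comm]
      exact sum_congr rfl (fun i _ => sum_congr rfl (fun j _ => by ring))
    rw [e, hsumW]
    refine (abs_sum_le_sum_abs _ _).trans (sum_le_sum (fun i hi => ?_))
    rw [abs_mul, abs_of_nonneg (hw i hi)]
    exact mul_le_mul_of_nonneg_left (C4_abs (hχ01 i) (k + 1)) (hw i hi)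
  -- (2)
  have h2 : |M * ∏ p ∈ P, (1 - h p) - ∑ j ∈ range (k + 1), (-1) ^ j * (M * C4_e P h j)| ≤
      M * C4_e P h (k + 1) := by
    have e : M * ∏ p ∈ P, (1 - h p) - ∑ j ∈ range (k + 1), (-1) ^ j * (M * C4_e P h j) =
        M * (∏ p ∈ P, (1 - h p) - ∑ j ∈ range (k + 1), (-1) ^ j * C4_e P h j) := by
      rw [mul_sub, mul_sum]
      congr 1
      exact sum_congr rfl (fun j _ => by ring)
    rw [e, abs_mul, abs_of_nonneg hM]
    exact mul_le_mul_of_nonneg_left (C4_abs hh (k + 1)) hM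
  -- (3)
  have hT : ∀ j, j ≤ k + 1 → |∑ T ∈ P.powersetCard j, W T - M * C4_e P h j| ≤
      ∑ T ∈ P.powersetCard j, err T := by
    intro j hj
    unfold C4_e
    rw [mul_sum, ← sum_sub_distrib]
    refine (abs_sum_le_sum_abs _ _).trans (sum_le_sum (fun T hT => ?_))
    rw [mem_powersetCard] at hT
    exact herr T (mem_powerset.2 hT.1) (by omega)
  have h3 : |∑ j ∈ range (k + 1), (-1) ^ j * ∑ T ∈ P.powersetCard j, W T -
      ∑ j ∈ range (k + 1), (-1) ^ j * (M * C4_e P h j)| ≤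
      ∑ j ∈ range (k + 1), ∑ T ∈ P.powersetCard j, err T := by
    rw [← sum_sub_distrib]
    refine (abs_sum_le_sum_abs _ _).trans (sum_le_sum (fun j hj => ?_))
    rw [mem_range] at hj
    rw [← mul_sub, abs_mul, abs_pow, abs_neg, abs_one, one_pow, one_mul]
    exact hT j (by omega)
  -- (4)
  have h4 : ∑ T ∈ P.powersetCard (k + 1), W T ≤
      M * C4_e P h (k + 1) + ∑ T ∈ P.powersetCard (k + 1), err T := by
    have := (abs_le.1 (hT (k + 1) le_rfl)).2
    linarith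
  -- (5)
  have h5 : ∑ T ∈ P.powerset.filter (fun T => T.card ≤ k + 1), err T =
      ∑ j ∈ range (k + 1), ∑ T ∈ P.powersetCard j, err T +
        ∑ T ∈ P.powersetCard (k + 1), err T := by
    rw [← sum_range_succ (fun j => ∑ T ∈ P.powersetCard j, err T) (k + 1)]
    rw [← sum_fiberwise_of_maps_to (s := P.powerset.filter (fun T => T.card ≤ k + 1))
      (t := range (k + 1 + 1)) (g := fun T => T.card)]
    · refine sum_congr rfl (fun j hj => sum_congr ?_ (fun _ _ => rfl))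
      rw [mem_range] at hj
      ext T
      rw [mem_filter, mem_filter, mem_powerset, mem_powersetCard]
      constructor
      · rintro ⟨⟨h, _⟩, h'⟩
        exact ⟨h, h'⟩
      · rintro ⟨h, h'⟩
        exact ⟨⟨h, by omega⟩, h'⟩
    · intro T hT
      rw [mem_filter] at hT
      rw [mem_range]
      omega
  -- (6)
  have h6 : M * C4_e P h (k + 1) ≤
      M * ((∑ p ∈ P, h p) ^ (k + 1) / ((k + 1).factorial : ℝ)) := by
    refine mul_le_mul_of_nonneg_left ?_ hM
    rw [le_div_iff₀ (by positivity), mul_comm]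
    exact C4_e_le (fun p hp => (hh p hp).1) (k + 1)
  have h7 : 2 * M * (∑ p ∈ P, h p) ^ (k + 1) / ((k + 1).factorial : ℝ) =
      2 * (M * ((∑ p ∈ P, h p) ^ (k + 1) / ((k + 1).factorial : ℝ))) := by ring
  rw [h5, h7]
  have h8 := abs_le.1 h1
  have h9 := abs_le.1 h2
  have h10 := abs_le.1 h3
  rw [abs_le]
  constructor <;> linarith [h8.1, h8.2, h9.1, h9.2, h10.1, h10.2]

end Pool.Agent.APP
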